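import Pool.Agent.H75.Final

/-!
# An integral form of a vertex operator algebra that is not nearly lattice-integral

We define vertex operator algebras over `ℚ` (in terms of the products `a_n b` and the Borcherds
identity, which is the component form of the Jacobi identity), invariant bilinear forms in the sense of
Frenkel, Huang and Lepowsky, and integral forms, and we exhibit a vertex operator algebra with an
integral form on which the values of the normalised invariant form have unbounded denominators.

The example is the Heisenberg vertex operator algebra of rank two on a hyperbolic plane, with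
`ℤ`-form spanned by the monomials in `e(-k), f(-k)`, `k ≥ 1`, and `e(-k)^2/2, f(-k)^2/2`,
`k` congruent to `0` or `3` modulo `4`.
-/

set_option autoImplicit false

namespace Pool.Agent.Results.MP_8ba02c_al.UnboundedDenominators

/-- A vertex algebra over `ℚ` with underlying space `V`: the products `a_n b = prod n a b` for
`n : ℤ`, the vacuum vector `vac`, and the usual properties. All the sums over `i : ℕ` in the Borcherds
identity have only finitely many nonzero terms, because of `truncation`. -/
structure VertexAlgebra (V : Type*) [AddCommGroup V] [Module ℚ V] where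
  /-- `prod n a b` is the product `a_n b`, i.e. `Y(a,z)b = ∑ (a_n b) z^(-n-1)`. -/
  prod : ℤ → V →ₗ[ℚ] V →ₗ[ℚ] V
  /-- the vacuum vector -/
  vac : V
  /-- `a_n b = 0` for `n` large -/
  truncation : ∀ a b : V, ∃ N : ℤ, ∀ n : ℤ, N ≤ n → prod n a b = 0
  /-- `Y(1,z) = id` -/
  vac_left : ∀ (n : ℤ) (b : V), prod n vac b = if n = -1 then b else 0
  /-- `a_{-1} 1 = a` -/
  vac_right : ∀ a : V, prod (-1) a vac = a
  /-- `a_n 1 = 0` for `n ≥ 0` -/
  vac_right_zero : ∀ (a : V) (n : ℤ), 0 ≤ n → prod n a vac = 0
  /-- the Borcherds identity (the components of the Jacobi identity) -/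
  borcherds : ∀ (a b c : V) (m n k : ℤ),
    ∑ᶠ i : ℕ, Ring.choose m i • prod (m + k - i) (prod (n + i) a b) c =
      ∑ᶠ i : ℕ, ((-1 : ℤ) ^ i * Ring.choose n i) •
        (prod (m + n - i) a (prod (k + i) b c) -
          ((-1 : ℚ) ^ n) • prod (n + k - i) b (prod (m + i) a c))

/-- The operators `L(n) = ω_{n+1}` attached to a vector `ω`. -/
def VertexAlgebra.vir {V : Type*} [AddCommGroup V] [Module ℚ V] (A : VertexAlgebra V) (ω : V)
    (n : ℤ) : Module.End ℚ V := A.prod (n + 1) ω

/-- A vertex operator algebra over `ℚ` with underlying space `V`: a vertex algebra with a conformal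
vector `conf` whose modes `L(n)` satisfy the Virasoro relations with central charge `charge`, such
that `L(-1)` is the translation operator, and such that `V` is the direct sum over `n : ℤ` of the
eigenspaces `V_n` of `L(0)`, which are finite dimensional and zero for `n` small. -/
structure VOA (V : Type*) [AddCommGroup V] [Module ℚ V] extends VertexAlgebra V where
  /-- the conformal vector `ω` -/
  conf : V
  /-- the central charge -/
  charge : ℚ
  /-- `[L(m), L(n)] = (m - n) L(m + n) + δ_{m+n,0} (m^3 - m)/12 c` -/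
  virasoro : ∀ (m n : ℤ) (v : V),
    toVertexAlgebra.vir conf m (toVertexAlgebra.vir conf n v) -
        toVertexAlgebra.vir conf n (toVertexAlgebra.vir conf m v) =
      ((m - n : ℤ) : ℚ) • toVertexAlgebra.vir conf (m + n) v +
        (if m + n = 0 then ((m : ℚ) ^ 3 - m) / 12 * charge else 0) • v
  /-- `Y(L(-1)a, z) = (d/dz) Y(a, z)` -/
  translation : ∀ (a b : V) (n : ℤ),
    prod n (toVertexAlgebra.vir conf (-1) a) b = (-(n : ℚ)) • prod (n - 1) a b
  /-- `V` is the direct sum of the spaces `V_n` -/
  grading : DirectSum.IsInternal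
    (fun n : ℤ => Module.End.eigenspace (toVertexAlgebra.vir conf 0) (n : ℚ))
  /-- each `V_n` is finite dimensional -/
  finite : ∀ n : ℤ,
    FiniteDimensional ℚ (Module.End.eigenspace (toVertexAlgebra.vir conf 0) (n : ℚ))
  /-- `V_n = 0` for `n` small -/
  bounded : ∃ N : ℤ, ∀ n : ℤ, n < N →
    Module.End.eigenspace (toVertexAlgebra.vir conf 0) (n : ℚ) = ⊥

variable {V : Type*} [AddCommGroup V] [Module ℚ V]

/-- The Virasoro operators `L(n)` of a vertex operator algebra. -/
def VOA.L (A : VOA V) (n : ℤ) : Module.End ℚ V := A.toVertexAlgebra.vir A.conf n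

/-- The space `V_n` of vectors of weight `n`. -/
def VOA.weightSpace (A : VOA V) (n : ℤ) : Submodule ℚ V := Module.End.eigenspace (A.L 0) (n : ℚ)

/-- `B` is a nondegenerate symmetric bilinear form on `V`, normalised by `(1,1) = 1`, which is
invariant in the sense of Frenkel, Huang and Lepowsky:
`(Y(a,z)b, c) = (b, Y(e^{zL(1)} (-z^{-2})^{L(0)} a, z^{-1}) c)`, that is, for `a` of weight `p`,
`(a_n b, c) = ∑_i ((-1)^p / i!) (b, (L(1)^i a)_{2p-n-i-2} c)`
(a finite sum, as `L(1)` lowers weights and weights are bounded below). -/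
structure VOA.IsNormalisedInvariantForm (A : VOA V) (B : V →ₗ[ℚ] V →ₗ[ℚ] ℚ) : Prop where
  symm : ∀ a b : V, B a b = B b a
  nondegenerate : ∀ a : V, (∀ b : V, B a b = 0) → a = 0
  normalised : B A.vac A.vac = 1
  invariant : ∀ (p : ℤ) (a : V), a ∈ A.weightSpace p → ∀ (n : ℤ) (b c : V),
    B (A.prod n a b) c = ∑ᶠ i : ℕ, ((-1 : ℚ) ^ p / (i.factorial : ℚ)) *
      B b (A.prod (2 * p - n - i - 2) ((A.L 1 ^ i) a) c)

/-- `J` is an integral form of the vertex operator algebra `A`: it is the `ℤ`-span of a `ℚ`-basis of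
`V`, it is closed under all the products `a_k b`, and it contains positive integer multiples of the
vacuum vector and of the conformal vector. -/
structure VOA.IsIntegralForm (A : VOA V) (J : AddSubgroup V) : Prop where
  span_basis : ∃ (ι : Type) (b : Module.Basis ι ℚ V), J = AddSubgroup.closure (Set.range b)
  prod_mem : ∀ a ∈ J, ∀ b ∈ J, ∀ k : ℤ, A.prod k a b ∈ J
  vac_mem : ∃ p : ℕ, 0 < p ∧ p • A.vac ∈ J
  conf_mem : ∃ q : ℕ, 0 < q ∧ q • A.conf ∈ J

open Pool.Agent.H75 in
/-- The rank two Heisenberg vertex operator algebra. -/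
noncomputable def heisenberg : VOA Pool.Agent.H75.V where
  prod := YL
  vac := 1
  truncation := fun a b => trunc b a
  vac_left := fun n b => Y_one_left b n
  vac_right := fun a => Y_neg_one_one a
  vac_right_zero := fun a n hn => Y_nonneg_one hn a
  borcherds := by
    intro a b c m n k
    have h := borcherds a b m n k c
    rw [Bor, LS, RS] at h
    have e1 : ∀ i : ℕ, Ring.choose m i • YL (m + k - i) (YL (n + i) a b) c =
        ch m i • Y (m + k - i) (Y (n + i) a b) c := by
      intro i; rw [YL_apply, YL_apply, zsmul_choose]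
    have e2 : ∀ i : ℕ, ((-1 : ℤ) ^ i * Ring.choose n i) •
        (YL (m + n - i) a (YL (k + i) b c) - ((-1 : ℚ) ^ n) • YL (n + k - i) b (YL (m + i) a c)) =
        ((-1 : ℚ) ^ i * ch n i) •
        (Y (m + n - i) a (Y (k + i) b c) - ((-1 : ℚ) ^ n) • Y (n + k - i) b (Y (m + i) a c)) := by
      intro i
      rw [← Int.cast_smul_eq_zsmul ℚ]
      push_cast
      rfl
    simp only [e1, e2]
    exact h
  conf := om
  charge := 2
  virasoro := fun m n v => virasoro m n v
  translation := by
    intro a b n
    have h := Y_T_left b n a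
    rw [← L_neg_one] at h
    exact h
  grading := grading_internal
  finite := eig_finite
  bounded := ⟨0, fun n hn => eig_neg n hn⟩

open Pool.Agent.H75 in
/-- There are a vertex operator algebra `A` over `ℚ`, with `V_0 = ℚ 1` and `V_n = 0` for `n < 0`, with
normalised nondegenerate invariant symmetric bilinear form `B`, and an integral form `J` of it, even
one that contains the vacuum and the conformal vector, such that no positive integer `m` satisfies
`(J, J) ⊆ (1/m) ℤ`. -/
theorem result :
    ∃ (V : Type) (_ : AddCommGroup V) (_ : Module ℚ V) (A : VOA V) (B : V →ₗ[ℚ] V →ₗ[ℚ] ℚ)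
      (J : AddSubgroup V),
      A.IsNormalisedInvariantForm B ∧ A.IsIntegralForm J ∧
      A.weightSpace 0 = Submodule.span ℚ {A.vac} ∧ (∀ n : ℤ, n < 0 → A.weightSpace n = ⊥) ∧
      A.vac ∈ J ∧ A.conf ∈ J ∧
      ¬ ∃ m : ℕ, 0 < m ∧ ∀ a ∈ J, ∀ b ∈ J, ∃ z : ℤ, (m : ℚ) * B a b = z := by
  have hvac : (1 : Pool.Agent.H75.V) ∈ R.toAddSubgroup := R.one_mem
  have hconf : om ∈ R.toAddSubgroup := R.mul_mem (X_mem _) (X_mem _)
  refine ⟨Pool.Agent.H75.V, inferInstance, inferInstance, heisenberg, Bf, R.toAddSubgroup,
    ⟨?_, ?_, ?_, ?_⟩, ⟨?_, ?_, ?_, ?_⟩, ?_, ?_, hvac, hconf, ?_⟩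
  · exact fun a b => Bf_symm a b
  · intro a ha
    obtain ⟨d, hd⟩ := exists_Fil a
    exact Bf_nondeg d a hd ha
  · change Bf 1 1 = 1
    rw [Bf_one, vev_one]
  · intro p a ha n b c
    exact invariance_finsum p n a b c ((Wt_iff p a).mpr ha)
  · exact ⟨_, bas, R_eq_span⟩
  · exact fun a ha b hb k => Y_mem hb a ha k
  · exact ⟨1, one_pos, by rw [one_smul]; exact hvac⟩
  · exact ⟨1, one_pos, by rw [one_smul]; exact hconf⟩
  · exact eig_zero
  · exact fun n hn => eig_neg n hn
  · rintro ⟨m, hm, hall⟩
    obtain ⟨a, ha, b, hb, hab⟩ := unbounded m hm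
    obtain ⟨z, hz⟩ := hall a ha b hb
    exact hab z hz

end Pool.Agent.Results.MP_8ba02c_al.UnboundedDenominators
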